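import Pool.Agent.Run7.h500.RD.Stm2

/-!
# Project RD2 (MP_9de3af_an, helper500): the piece VERT2

Adaptation of the piece VERT of helper329 to the kernel with the exponential factor.
-/

set_option autoImplicit false

open MeasureTheory Filter Topology Set Pool.Agent.Run7.h500.RD

namespace Run7.h983.RD2

/-- a smaller power is absorbed by a larger one -/
theorem absorb (ρ0 ρ κ K : ℝ) (h0 : 0 < ρ0) (h1 : ρ0 < ρ) (hκ : 0 < κ) (hK : 0 < K) :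
    ∃ M : ℝ, ∀ t : ℝ, 0 < t → K * t ^ ρ0 ≤ κ * t ^ ρ + M := by
  set T : ℝ := (K / κ) ^ (1 / (ρ - ρ0)) with hT
  have hT0 : 0 < T := Real.rpow_pos_of_pos (div_pos hK hκ) _
  have hd : 0 < ρ - ρ0 := sub_pos.2 h1
  refine ⟨K * T ^ ρ0, fun t ht => ?_⟩
  have hA : 0 ≤ κ * t ^ ρ := mul_nonneg hκ.le (Real.rpow_nonneg ht.le _)
  have hB : 0 ≤ K * T ^ ρ0 := mul_nonneg hK.le (Real.rpow_nonneg hT0.le _)
  rcases le_total t T with h | h
  · have h2 : K * t ^ ρ0 ≤ K * T ^ ρ0 :=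
      mul_le_mul_of_nonneg_left (Real.rpow_le_rpow ht.le h h0.le) hK.le
    linarith
  · have h2 : K / κ ≤ t ^ (ρ - ρ0) := by
      have h3 : T ^ (ρ - ρ0) = K / κ := by
        rw [hT, ← Real.rpow_mul (div_pos hK hκ).le, one_div, inv_mul_cancel₀ hd.ne',
          Real.rpow_one]
      rw [← h3]
      exact Real.rpow_le_rpow hT0.le h hd.le
    have h4 : K ≤ κ * t ^ (ρ - ρ0) := by
      rw [div_le_iff₀ hκ] at h2
      linarith
    have h5 : t ^ ρ = t ^ (ρ - ρ0) * t ^ ρ0 := by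
      rw [← Real.rpow_add ht]
      congr 1
      ring
    have h6 : K * t ^ ρ0 ≤ κ * t ^ (ρ - ρ0) * t ^ ρ0 :=
      mul_le_mul_of_nonneg_right h4 (Real.rpow_nonneg ht.le _)
    rw [h5]
    linarith

/-- the pointwise bound of the integrand -/
theorem bound2 (hKER : S_KER2) (ρ0 ρ ε : ℝ) (k : ℕ) (c : ℂ) (hP : Par ρ0 ρ ε)
    (hc : 0 < c.im) :
    ∃ B : ℝ, 0 ≤ B ∧ ∀ (f : ℝ × ℝ → ℝ) (a η : ℝ) (z : ℝ × ℝ), 0 ≤ η * z.2 →
      ‖(f z : ℂ) * ker2 ρ ε k c ((a : ℂ) + η * Complex.I) z‖ ≤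
        B * (|f z| * Real.exp (-(|z.1 - a * z.2| ^ ρ0))) := by
  have hρ : 0 < ρ := hP.h0.trans hP.h1
  obtain ⟨-, hE, -, -⟩ := hKER ρ ε hρ hP.h2 hP.h3
  set κ : ℝ := ε * Real.cos (Real.pi * ρ / 2) with hκ
  have hκ0 : 0 < κ := by
    refine mul_pos hP.h3 (Real.cos_pos_of_mem_Ioo ⟨?_, ?_⟩)
    · have := mul_pos Real.pi_pos hρ
      linarith [Real.pi_pos]
    · have := mul_lt_mul_of_pos_left hP.h2 Real.pi_pos
      linarith
  set K : ℝ := 1 + ‖c‖ / c.im with hK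
  have hK0 : 0 < K := by positivity
  obtain ⟨M, hM⟩ := absorb ρ0 ρ κ (K ^ ρ0) hP.h0 hP.h1 hκ0 (Real.rpow_pos_of_pos hK0 _)
  refine ⟨(c.im ^ k)⁻¹ * Real.exp M, by positivity, ?_⟩
  intro f a η z h
  set Z : ℂ := ((a : ℂ) + η * Complex.I) * (z.2 : ℂ) - (z.1 : ℂ) + c with hZ
  have him : Z.im = η * z.2 + c.im := by simp [hZ]
  have hre : Z.re = a * z.2 - z.1 + c.re := by simp [hZ]
  have hZim : c.im ≤ Z.im := by
    rw [him]
    linarith
  have hZ1 : c.im ≤ ‖Z‖ := hZim.trans ((le_abs_self _).trans (Complex.abs_im_le_norm Z))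
  have hZ0 : 0 < ‖Z‖ := hc.trans_le hZ1
  have hx : |z.1 - a * z.2| ≤ K * ‖Z‖ := by
    have e : z.1 - a * z.2 = c.re - Z.re := by
      rw [hre]
      ring
    have h2 : |z.1 - a * z.2| ≤ ‖c‖ + ‖Z‖ := by
      rw [e]
      calc |c.re - Z.re| ≤ |c.re| + |Z.re| := abs_sub _ _
        _ ≤ ‖c‖ + ‖Z‖ := add_le_add (Complex.abs_re_le_norm c) (Complex.abs_re_le_norm Z)
    have h3 : ‖c‖ ≤ ‖c‖ / c.im * ‖Z‖ := by
      have h4 : ‖c‖ / c.im * c.im = ‖c‖ := div_mul_cancel₀ _ hc.ne'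
      have h5 := mul_le_mul_of_nonneg_left hZ1 (show 0 ≤ ‖c‖ / c.im by positivity)
      linarith
    calc |z.1 - a * z.2| ≤ ‖c‖ + ‖Z‖ := h2
      _ ≤ ‖c‖ / c.im * ‖Z‖ + ‖Z‖ := by linarith
      _ = K * ‖Z‖ := by
        rw [hK]
        ring
  have hpow : |z.1 - a * z.2| ^ ρ0 ≤ K ^ ρ0 * ‖Z‖ ^ ρ0 := by
    rw [← Real.mul_rpow hK0.le hZ0.le]
    exact Real.rpow_le_rpow (abs_nonneg _) hx hP.h0.le
  have hexp : Real.exp (-(κ * ‖Z‖ ^ ρ)) ≤
      Real.exp M * Real.exp (-(|z.1 - a * z.2| ^ ρ0)) := by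
    rw [← Real.exp_add]
    apply Real.exp_le_exp.2
    have := hM ‖Z‖ hZ0
    linarith
  have e : ‖(f z : ℂ) * ker2 ρ ε k c ((a : ℂ) + η * Complex.I) z‖ =
      |f z| * ((‖Z‖ ^ k)⁻¹ * ‖EE ρ ε Z‖) := by
    unfold ker2 Pool.Agent.Run7.h500.RD.ker
    rw [norm_mul, norm_mul, norm_inv, norm_pow, Complex.norm_real, Real.norm_eq_abs]
  rw [e]
  have h1 : (‖Z‖ ^ k)⁻¹ ≤ (c.im ^ k)⁻¹ :=
    inv_anti₀ (by positivity) (pow_le_pow_left₀ hc.le hZ1 k)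
  have h2 : ‖EE ρ ε Z‖ ≤ Real.exp M * Real.exp (-(|z.1 - a * z.2| ^ ρ0)) :=
    (hE Z (hc.trans_le hZim)).trans hexp
  calc |f z| * ((‖Z‖ ^ k)⁻¹ * ‖EE ρ ε Z‖)
      ≤ |f z| * ((c.im ^ k)⁻¹ * (Real.exp M * Real.exp (-(|z.1 - a * z.2| ^ ρ0)))) :=
        mul_le_mul_of_nonneg_left (mul_le_mul h1 h2 (norm_nonneg _) (by positivity))
          (abs_nonneg _)
    _ = (c.im ^ k)⁻¹ * Real.exp M * (|f z| * Real.exp (-(|z.1 - a * z.2| ^ ρ0))) := by ring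

theorem measurable_EE (ρ ε : ℝ) : Measurable (EE ρ ε) := by
  unfold EE
  exact Complex.measurable_exp.comp
    ((measurable_const.mul ((measurable_const.mul measurable_id).pow_const _)).neg)

theorem measurable_integrand (f : ℝ × ℝ → ℝ) (hf : Continuous f) (ρ ε : ℝ) (k : ℕ)
    (c w : ℂ) : Measurable (fun z : ℝ × ℝ => (f z : ℂ) * ker2 ρ ε k c w z) := by
  have h0 : Continuous (fun z : ℝ × ℝ => w * (z.2 : ℂ) - (z.1 : ℂ) + c) := by fun_prop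
  have h1 : Measurable (fun z : ℝ × ℝ => ((w * (z.2 : ℂ) - (z.1 : ℂ) + c) ^ k)⁻¹) :=
    (h0.pow k).measurable.inv
  have h2 : Continuous (fun z : ℝ × ℝ => (f z : ℂ)) := by fun_prop
  have h3 : Measurable (fun z : ℝ × ℝ => EE ρ ε (w * (z.2 : ℂ) - (z.1 : ℂ) + c)) :=
    (measurable_EE ρ ε).comp h0.measurable
  exact h2.measurable.mul (h1.mul h3)

theorem measurableSet_up : MeasurableSet up := by
  have : up = (fun z : ℝ × ℝ => z.2) ⁻¹' Ioi 0 := by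
    ext z
    simp [up]
  rw [this]
  exact measurable_snd measurableSet_Ioi

theorem integrable_majorant (f : ℝ × ℝ → ℝ) (ρ0 a B : ℝ) (h : WE f ρ0 a) :
    Integrable (fun z : ℝ × ℝ => B * (|f z| * Real.exp (-(|z.1 - a * z.2| ^ ρ0)))) := by
  refine (h.norm.congr ?_).const_mul B
  refine Filter.Eventually.of_forall fun z => ?_
  show ‖f z * Real.exp (-(|z.1 - a * z.2| ^ ρ0))‖ = |f z| * Real.exp (-(|z.1 - a * z.2| ^ ρ0))
  rw [norm_mul, Real.norm_eq_abs, Real.norm_eq_abs, abs_of_pos (Real.exp_pos _)]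

theorem t_VERT2 : S_VERT2 := by
  intro hKER ρ0 ρ ε k c hP hc
  obtain ⟨B, hB, hb⟩ := bound2 hKER ρ0 ρ ε k c hP hc
  refine ⟨B, hB, fun f hf a η hWE hη => ?_⟩
  have hint := integrable_majorant f ρ0 a B hWE
  have hae : ∀ᵐ z ∂(volume.restrict up),
      ‖(f z : ℂ) * ker2 ρ ε k c ((a : ℂ) + η * Complex.I) z‖ ≤
        B * (|f z| * Real.exp (-(|z.1 - a * z.2| ^ ρ0))) := by
    refine ae_restrict_of_forall_mem measurableSet_up fun z hz => ?_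
    have hz' : 0 < z.2 := hz
    exact hb f a η z (mul_nonneg hη hz'.le)
  have hmeas : AEStronglyMeasurable
      (fun z : ℝ × ℝ => (f z : ℂ) * ker2 ρ ε k c ((a : ℂ) + η * Complex.I) z)
      (volume.restrict up) :=
    (measurable_integrand f hf ρ ε k c _).aestronglyMeasurable
  refine ⟨hint.integrableOn.mono' hmeas hae, ?_⟩
  unfold Vp2
  calc ‖∫ z in up, (f z : ℂ) * ker2 ρ ε k c ((a : ℂ) + η * Complex.I) z‖
      ≤ ∫ z in up, B * (|f z| * Real.exp (-(|z.1 - a * z.2| ^ ρ0))) :=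
        norm_integral_le_of_norm_le hint.integrableOn hae
    _ ≤ ∫ z : ℝ × ℝ, B * (|f z| * Real.exp (-(|z.1 - a * z.2| ^ ρ0))) := by
        refine setIntegral_le_integral hint ?_
        refine Filter.Eventually.of_forall fun z => ?_
        show (0 : ℝ) ≤ B * (|f z| * Real.exp (-(|z.1 - a * z.2| ^ ρ0)))
        positivity
    _ = B * NE f ρ0 a := by
        unfold NE
        rw [integral_const_mul]

end Run7.h983.RD2
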